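import Mathlib

namespace Pool.Agent.Results.MP_9404a8_an.Q1

open Complex Metric Set

/-- The class `S` of normalized univalent functions on the unit disc. -/
def InS (f : ℂ → ℂ) : Prop :=
  DifferentiableOn ℂ f (ball 0 1) ∧ InjOn f (ball 0 1) ∧ f 0 = 0 ∧ deriv f 0 = 1

/-- `z / f z`, read as `1` at `0`. -/
noncomputable def quo (f : ℂ → ℂ) (z : ℂ) : ℂ := if z = 0 then 1 else z / f z

/-- The bracket under the logarithm. -/
noncomputable def br (f : ℂ → ℂ) (z w : ℂ) : ℂ :=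
  (if z = w then deriv f z else (f z - f w) / (z - w)) * quo f z * quo f w

/-- `F` is the holomorphic logarithm of the bracket on the bidisc with `F 0 0 = 0`. -/
def IsLog (f : ℂ → ℂ) (F : ℂ × ℂ → ℂ) : Prop :=
  DifferentiableOn ℂ F (ball 0 1 ×ˢ ball 0 1) ∧ F (0, 0) = 0 ∧
    ∀ z ∈ ball (0 : ℂ) 1, ∀ w ∈ ball (0 : ℂ) 1, exp (F (z, w)) = br f z w

/-- The mixed partial derivative of orders `p`, `q` of `F` at `(z, z)`. -/
noncomputable def Sch (F : ℂ × ℂ → ℂ) (p q : ℕ) (z : ℂ) : ℂ :=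
  iteratedDeriv p (fun u => iteratedDeriv q (fun w => F (u, w)) z) z

noncomputable def c : ℂ := 199 / 200

noncomputable def ph (z : ℂ) : ℂ := (c - z) / (1 - c * z)

noncomputable def f0 (z : ℂ) : ℂ := z * (1 - c * z) / (1 - z ^ 2)

noncomputable def F0 (x : ℂ × ℂ) : ℂ := log (1 - x.2 * ph x.1) - log (1 - x.2 * c)

lemma sl {a w : ℂ} (ha : ‖a‖ ≤ 1) (hw : w ∈ ball (0 : ℂ) 1) : 1 - w * a ∈ slitPlane := by
  rw [mem_ball_zero_iff] at hw
  rw [sub_eq_add_neg]
  refine mem_slitPlane_of_norm_lt_one ?_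
  rw [norm_neg, norm_mul]
  nlinarith [norm_nonneg a, norm_nonneg w]

lemma cn : ‖c‖ ≤ 1 := by simp [c]; norm_num

lemma d0 {z : ℂ} (hz : z ∈ ball (0 : ℂ) 1) : 1 - c * z ≠ 0 := by
  rw [mul_comm]; exact slitPlane_ne_zero (sl cn hz)

lemma pn {z : ℂ} (hz : z ∈ ball (0 : ℂ) 1) : ‖ph z‖ ≤ 1 := by
  rw [ph, norm_div, div_le_one (norm_pos_iff.2 (d0 hz)), ← sq_le_sq₀ (norm_nonneg _) (norm_nonneg _)]
  rw [mem_ball_zero_iff, ← sq_lt_one_iff₀ (norm_nonneg _)] at hz
  simp only [← normSq_eq_norm_sq, normSq_apply] at *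
  simp [c]
  nlinarith

lemma s0 {z : ℂ} (hz : z ∈ ball (0 : ℂ) 1) : 1 - z ^ 2 ≠ 0 := by
  rw [sq]; exact slitPlane_ne_zero (sl (mem_ball_zero_iff.1 hz).le hz)

lemma key {z : ℂ} (hz : z ∈ ball (0 : ℂ) 1) (w : ℂ) :
    (1 - c * z) * (1 - w * ph z) = 1 - c * z - w * (c - z) := by
  rw [ph, mul_sub (1 - c * z), mul_one, mul_left_comm, mul_div_cancel₀ _ (d0 hz)]

lemma dif {z w : ℂ} (hz : z ∈ ball (0 : ℂ) 1) (hw : w ∈ ball (0 : ℂ) 1) :
    f0 z - f0 w = (z - w) * ((1 - c * z) * (1 - w * ph z) / ((1 - z ^ 2) * (1 - w ^ 2))) := by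
  have := d0 hz; have := s0 hz; have := s0 hw
  rw [key hz]; simp only [f0]; field_simp; ring

lemma der {z : ℂ} (hz : z ∈ ball (0 : ℂ) 1) :
    HasDerivAt f0 ((1 - c * z) * (1 - z * ph z) / ((1 - z ^ 2) * (1 - z ^ 2))) z := by
  have := d0 hz; have h := s0 hz
  refine (((hasDerivAt_id z).mul (((hasDerivAt_id z).const_mul c).const_sub 1)).div
    ((hasDerivAt_pow 2 z).const_sub 1) h).congr_deriv ?_
  rw [key hz]
  simp only [id, Pi.mul_apply]; field_simp; ring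

lemma qu {z : ℂ} (hz : z ∈ ball (0 : ℂ) 1) : quo f0 z = (1 - z ^ 2) / (1 - c * z) := by
  have := d0 hz; have := s0 hz
  rw [quo]; split_ifs with h
  · simp [h]
  · rw [f0]; field_simp

lemma two {a z : ℂ} (ha : ‖a‖ ≤ 1) (hz : z ∈ ball (0 : ℂ) 1) :
    iteratedDeriv 2 (fun w => log (1 - w * a) - log (1 - w * c)) z =
      -(a / (1 - z * a)) ^ 2 + (c / (1 - z * c)) ^ 2 := by
  have l {a w : ℂ} := ((hasDerivAt_id w).mul_const a).const_sub 1
  have e : deriv (fun w => log (1 - w * a) - log (1 - w * c)) =ᶠ[nhds z]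
      fun w => -(1 * a) / (1 - w * a) - -(1 * c) / (1 - w * c) := by
    filter_upwards [isOpen_ball.mem_nhds hz] with w hw
    exact ((l.clog (sl ha hw)).sub (l.clog (sl cn hw))).deriv
  have a0 := slitPlane_ne_zero (sl ha hz)
  have c0 := slitPlane_ne_zero (sl cn hz)
  rw [iteratedDeriv_succ, iteratedDeriv_one, e.deriv_eq]
  refine ((((hasDerivAt_const z _).div l a0).sub ((hasDerivAt_const z _).div l c0)).deriv).trans ?_
  simp only [id]; field_simp; ring

theorem result : ∃ (p q : ℕ) (f : ℂ → ℂ) (F : ℂ × ℂ → ℂ), 0 < p ∧ 0 < q ∧ p ≠ q ∧ InS f ∧ IsLog f F ∧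
    ∃ z ∈ ball (0 : ℂ) 1, ((p + q - 1).factorial : ℝ) < ‖Sch F p q z‖ * (1 - ‖z‖ ^ 2) ^ (p + q) := by
  have z0 : (0 : ℂ) ∈ ball (0 : ℂ) 1 := by simp
  refine ⟨1, 2, f0, F0, one_pos, two_pos, by norm_num, ⟨fun z hz => (der hz).differentiableAt.differentiableWithinAt,
    fun z hz w hw h => ?_, by simp [f0], by simp [(der z0).deriv]⟩, ⟨fun x hx => ?_, by simp [F0], fun z hz w hw => ?_⟩, ?_⟩
  · have := dif hz hw
    rw [h, sub_self, eq_comm, mul_eq_zero, sub_eq_zero] at this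
    exact this.resolve_right (div_ne_zero (mul_ne_zero (d0 hz) (slitPlane_ne_zero (sl (pn hz) hw)))
      (mul_ne_zero (s0 hz) (s0 hw)))
  · have := d0 hx.1
    have a : DifferentiableAt ℂ (fun x : ℂ × ℂ => 1 - x.2 * ph x.1) x := by
      unfold ph
      fun_prop (disch := assumption)
    have b : DifferentiableAt ℂ (fun x : ℂ × ℂ => 1 - x.2 * c) x := by fun_prop
    exact ((a.clog (sl (pn hx.1) hx.2)).sub (b.clog (sl cn hx.2))).differentiableWithinAt
  · have := d0 hz; have := d0 hw; have := s0 hz; have := s0 hw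
    have e : (if z = w then deriv f0 z else (f0 z - f0 w) / (z - w)) =
        (1 - c * z) * (1 - w * ph z) / ((1 - z ^ 2) * (1 - w ^ 2)) := by
      split_ifs with h
      · subst h; exact (der hz).deriv
      · rw [dif hz hw, mul_div_cancel_left₀ _ (sub_ne_zero.2 h)]
    rw [br, e, qu hz, qu hw, F0, exp_sub, exp_log (slitPlane_ne_zero (sl (pn hz) hw)),
      exp_log (slitPlane_ne_zero (sl cn hw)), mul_comm w c]
    field_simp
  · have hz : (43 / 50 : ℂ) ∈ ball (0 : ℂ) 1 := by simp; norm_num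
    refine ⟨_, hz, ?_⟩
    have e : (fun u => iteratedDeriv 2 (fun w => F0 (u, w)) (43 / 50)) =ᶠ[nhds (43 / 50)]
        fun u => -((c - u) / (1 - c * u - 43 / 50 * (c - u))) ^ 2 + (c / (1 - 43 / 50 * c)) ^ 2 := by
      filter_upwards [isOpen_ball.mem_nhds hz] with u hu
      have := d0 hu
      refine (two (pn hu) hz).trans ?_
      rw [← key hu, ← div_div, ← ph]
    have l := (hasDerivAt_id (43 / 50 : ℂ)).const_sub c
    have D := (((l.div ((((hasDerivAt_id _).const_mul c).const_sub 1).sub (l.const_mul (43 / 50)))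
      (by norm_num [c])).pow 2).neg.add_const ((c / (1 - 43 / 50 * c)) ^ 2)).deriv
    rw [Sch, iteratedDeriv_one, e.deriv_eq]
    erw [D]
    norm_num [c]

end Pool.Agent.Results.MP_9404a8_an.Q1
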